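import Mathlib

/-!
# A stable continuous theory without enough d-definable sets

The theory is that of an infinite set with the discrete metric and one unary predicate `P` with
values in `[0,1]`, all values being taken infinitely often. Types are determined by the values of
`P` and by equality, so the theory is stable; the space of 1-types over the empty set is `[0,1]`,
which is connected, while the metric on it is discrete, so the only d-definable sets over the empty
set are the trivial ones.
-/

set_option autoImplicit false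

open scoped unitInterval Cardinal

namespace Pool.Agent.Results.MP_cc3859_lc.StableNotEnough

/-! ### Continuous first-order logic -/

/-- A signature for metric structures: function and predicate symbols with their arities and moduli
of uniform continuity. -/
structure Signature where
  Func : ℕ → Type
  Pred : ℕ → Type
  funcMod : ∀ {n : ℕ}, Func n → ℝ → ℝ
  predMod : ∀ {n : ℕ}, Pred n → ℝ → ℝ
  funcMod_pos : ∀ {n : ℕ} (f : Func n) (ε : ℝ), 0 < ε → 0 < funcMod f ε
  predMod_pos : ∀ {n : ℕ} (P : Pred n) (ε : ℝ), 0 < ε → 0 < predMod P ε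

/-- Terms in the variables `0, ..., n-1`. -/
inductive Term (L : Signature) (n : ℕ) : Type
  | var (i : Fin n) : Term L n
  | app {k : ℕ} (f : L.Func k) (ts : Fin k → Term L n) : Term L n

/-- Formulas in the free variables `0, ..., n-1`: atomic formulas `d(s,t)` and `P(t₁,...,t_k)`,
all continuous connectives `[0,1]^k → [0,1]`, and the quantifiers `inf` and `sup` over the last
variable. -/
inductive Fmla (L : Signature) : ℕ → Type
  | metric {n : ℕ} (s t : Term L n) : Fmla L n
  | pred {n k : ℕ} (P : L.Pred k) (ts : Fin k → Term L n) : Fmla L n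
  | conn {n k : ℕ} (u : C(Fin k → I, I)) (φ : Fin k → Fmla L n) : Fmla L n
  | inf {n : ℕ} (φ : Fmla L (n + 1)) : Fmla L n
  | sup {n : ℕ} (φ : Fmla L (n + 1)) : Fmla L n

/-- A metric structure: a nonempty complete metric space of diameter at most one with uniformly
continuous functions and predicates, obeying the moduli of the signature. Powers of the space carry
the maximum metric. -/
structure MetricStructure (L : Signature) where
  carrier : Type
  [metric : MetricSpace carrier]
  [complete : CompleteSpace carrier]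
  [nonempty : Nonempty carrier]
  dist_le_one : ∀ x y : carrier, dist x y ≤ 1
  func : ∀ {n : ℕ}, L.Func n → (Fin n → carrier) → carrier
  pred : ∀ {n : ℕ}, L.Pred n → (Fin n → carrier) → I
  func_unif : ∀ {n : ℕ} (f : L.Func n) (ε : ℝ) (x y : Fin n → carrier), 0 < ε →
    dist x y < L.funcMod f ε → dist (func f x) (func f y) ≤ ε
  pred_unif : ∀ {n : ℕ} (P : L.Pred n) (ε : ℝ) (x y : Fin n → carrier), 0 < ε →
    dist x y < L.predMod P ε → |(pred P x : ℝ) - (pred P y : ℝ)| ≤ ε

attribute [instance] MetricStructure.metric MetricStructure.complete MetricStructure.nonempty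

variable {L : Signature}

/-- The value of a term. -/
def Term.eval (M : MetricStructure L) {n : ℕ} : Term L n → (Fin n → M.carrier) → M.carrier
  | .var i, x => x i
  | .app f ts, x => M.func f fun i => (ts i).eval M x

/-- The value of a formula. -/
noncomputable def Fmla.eval (M : MetricStructure L) :
    {n : ℕ} → Fmla L n → (Fin n → M.carrier) → I
  | _, .metric s t, x => ⟨dist (s.eval M x) (t.eval M x), dist_nonneg, M.dist_le_one _ _⟩
  | _, .pred P ts, x => M.pred P fun i => (ts i).eval M x
  | _, .conn u φ, x => u fun i => (φ i).eval M x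
  | _, .inf φ, x => ⨅ a : M.carrier, φ.eval M (Fin.snoc x a)
  | _, .sup φ, x => ⨆ a : M.carrier, φ.eval M (Fin.snoc x a)

/-- A theory: a set of sentences `φ`, standing for the conditions `φ = 0`. -/
abbrev Theory (L : Signature) := Set (Fmla L 0)

/-- `M` is a model of `T`. -/
def Models (M : MetricStructure L) (T : Theory L) : Prop :=
  ∀ φ ∈ T, φ.eval M Fin.elim0 = 0

/-- `T` is complete: it has a model, and all its models give every sentence the same value. -/
def IsComplete (T : Theory L) : Prop :=
  (∃ M : MetricStructure L, Models M T) ∧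
    ∀ M N : MetricStructure L, Models M T → Models N T →
      ∀ φ : Fmla L 0, φ.eval M Fin.elim0 = φ.eval N Fin.elim0

/-- The value in `M` of the formula `φ(x, a)`. -/
noncomputable abbrev val (M : MetricStructure L) {n k : ℕ} (φ : Fmla L (n + k))
    (x : Fin n → M.carrier) (a : Fin k → M.carrier) : ℝ :=
  (φ.eval M (Fin.append x a) : ℝ)

/-- `Q` is a definable predicate on `M^n` over `A`: a uniform limit of formulas with parameters
from `A`. -/
def IsDefinablePredicate (M : MetricStructure L) (A : Set M.carrier) {n : ℕ}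
    (Q : (Fin n → M.carrier) → ℝ) : Prop :=
  ∀ ε : ℝ, 0 < ε → ∃ (k : ℕ) (φ : Fmla L (n + k)) (a : Fin k → M.carrier), (∀ i, a i ∈ A) ∧
    ∀ x, |Q x - val M φ x a| ≤ ε

/-- `D ⊆ M^n` is d-definable (distance definable) in `M` over `A`. -/
def IsDDefinable (M : MetricStructure L) (A : Set M.carrier) {n : ℕ}
    (D : Set (Fin n → M.carrier)) : Prop :=
  IsClosed D ∧ IsDefinablePredicate M A (fun x => Metric.infDist x D)

/-- A complete `n`-type over `A`, in the sense of the theory of `M` with parameters from `A`: an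
assignment of values to all formulas with parameters from `A` which is finitely approximately
satisfiable in `M`. -/
structure CompleteType (M : MetricStructure L) (A : Set M.carrier) (n : ℕ) where
  value : (c : Σ k : ℕ, Fmla L (n + k) × (Fin k → A)) → I
  finSat : ∀ (m : ℕ) (c : Fin m → Σ k : ℕ, Fmla L (n + k) × (Fin k → A)) (ε : ℝ), 0 < ε →
    ∃ x : Fin n → M.carrier, ∀ j : Fin m,
      |val M (c j).2.1 x (fun i => ((c j).2.2 i : M.carrier)) - (value (c j) : ℝ)| < ε

/-- The set `p(M)` of realizations of `p` in `M`. -/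
def CompleteType.realizations {M : MetricStructure L} {A : Set M.carrier} {n : ℕ}
    (p : CompleteType M A n) : Set (Fin n → M.carrier) :=
  {x | ∀ c : Σ k : ℕ, Fmla L (n + k) × (Fin k → A),
    val M c.2.1 x (fun i => (c.2.2 i : M.carrier)) = (p.value c : ℝ)}

/-- `T` has enough d-definable sets. -/
def HasEnoughDDefinableSets (T : Theory L) : Prop :=
  ∀ M : MetricStructure L, Models M T → ∀ (A : Set M.carrier) (n : ℕ) (p : CompleteType M A n),
    ∃ 𝒟 : Set (Set (Fin n → M.carrier)), (∀ D ∈ 𝒟, IsDDefinable M A D) ∧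
      p.realizations = ⋂₀ 𝒟

/-- `T` is stable: no formula `φ(x, y)` has the order property, that is, for no `ε > 0` is there
in a model of `T` a sequence `(aᵢ, bᵢ)` with `|φ(aᵢ, bⱼ) - φ(aⱼ, bᵢ)| ≥ ε` for all `i < j`. -/
def IsStable (T : Theory L) : Prop :=
  ∀ M : MetricStructure L, Models M T → ∀ (m n : ℕ) (φ : Fmla L (m + n)) (ε : ℝ), 0 < ε →
    ¬ ∃ (a : ℕ → Fin m → M.carrier) (b : ℕ → Fin n → M.carrier),
      ∀ i j : ℕ, i < j → ε ≤ |val M φ (a i) (b j) - val M φ (a j) (b i)|

/-- There are at most `κ` complete `n`-types over every set of at most `κ` parameters, for every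
`n`. (In particular `T` is `κ`-stable.) -/
def HasFewTypes (T : Theory L) (κ : Cardinal.{0}) : Prop :=
  ∀ M : MetricStructure L, Models M T → ∀ A : Set M.carrier, #A ≤ κ → ∀ n : ℕ,
    #(CompleteType M A n) ≤ κ

/-! ### The example -/

/-- The signature with one unary predicate. -/
def L0 : Signature where
  Func := fun _ => Empty
  Pred := fun n => PLift (n = 1)
  funcMod := fun f => f.elim
  predMod := fun _ _ => 1
  funcMod_pos := fun f => f.elim
  predMod_pos := fun _ _ _ => one_pos

/-- The predicate of a structure. -/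
def P (M : MetricStructure L0) (x : M.carrier) : I :=
  M.pred (n := 1) (PLift.up rfl : L0.Pred 1) (fun _ => x)

/-- The metric is discrete and every value of `P` is approximated outside every finite set. -/
structure Nice (M : MetricStructure L0) : Prop where
  discrete : ∀ x y : M.carrier, x ≠ y → dist x y = 1
  ext : ∀ (n : ℕ) (x : Fin n → M.carrier) (c : I) (ε : ℝ), 0 < ε →
    ∃ y : M.carrier, (∀ i, y ≠ x i) ∧ |(P M y : ℝ) - (c : ℝ)| < ε

theorem term_eval (t : Σ n, Term L0 n) : ∃ i : Fin t.1, t.2 = Term.var i := by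
  obtain ⟨n, t⟩ := t
  cases t with
  | var i => exact ⟨i, rfl⟩
  | app f ts => exact f.elim

theorem term_var {n : ℕ} (t : Term L0 n) : ∃ i : Fin n, t = Term.var i := term_eval ⟨n, t⟩

theorem le_coe_iInf {ι : Type} [Nonempty ι] (g : ι → I) (r : ℝ) (h : ∀ b, r ≤ (g b : ℝ)) :
    r ≤ ((⨅ b, g b : I) : ℝ) := by
  by_cases hr : 0 ≤ r
  · have h1 : r ≤ 1 := (h (Classical.arbitrary ι)).trans (g _).2.2
    have h2 : (⟨r, hr, h1⟩ : I) ≤ ⨅ b, g b := le_iInf fun b => h b
    exact h2
  · exact (not_le.1 hr).le.trans (⨅ b, g b : I).2.1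

theorem coe_iSup_le {ι : Type} [Nonempty ι] (g : ι → I) (r : ℝ) (h : ∀ b, (g b : ℝ) ≤ r) :
    ((⨆ b, g b : I) : ℝ) ≤ r := by
  by_cases hr : r ≤ 1
  · have h1 : 0 ≤ r := (g _).2.1.trans (h (Classical.arbitrary ι))
    have h2 : ⨆ b, g b ≤ (⟨r, h1, hr⟩ : I) := iSup_le fun b => h b
    exact h2
  · exact (⨆ b, g b : I).2.2.trans (not_le.1 hr).le

/-- The extension step of the back-and-forth. -/
theorem extend {n : ℕ} {M N : MetricStructure L0} (hM : Nice M) {δ : ℝ} (hδ : 0 < δ)
    {x : Fin n → M.carrier} {y : Fin n → N.carrier} (hxy : ∀ i j, x i = x j ↔ y i = y j)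
    (hP : ∀ i, |(P M (x i) : ℝ) - (P N (y i) : ℝ)| < δ) (b : N.carrier) :
    ∃ a : M.carrier,
      (∀ i j : Fin (n + 1), (Fin.snoc x a : Fin (n + 1) → M.carrier) i =
        (Fin.snoc x a : Fin (n + 1) → M.carrier) j ↔
        (Fin.snoc y b : Fin (n + 1) → N.carrier) i = (Fin.snoc y b : Fin (n + 1) → N.carrier) j) ∧
      (∀ i, |(P M ((Fin.snoc x a : Fin (n + 1) → M.carrier) i) : ℝ) -
        (P N ((Fin.snoc y b : Fin (n + 1) → N.carrier) i) : ℝ)| < δ) := by
  have main : ∀ a : M.carrier, (∀ i, a = x i ↔ b = y i) → |(P M a : ℝ) - (P N b : ℝ)| < δ →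
      (∀ i j : Fin (n + 1), (Fin.snoc x a : Fin (n + 1) → M.carrier) i =
        (Fin.snoc x a : Fin (n + 1) → M.carrier) j ↔
        (Fin.snoc y b : Fin (n + 1) → N.carrier) i = (Fin.snoc y b : Fin (n + 1) → N.carrier) j) ∧
      (∀ i, |(P M ((Fin.snoc x a : Fin (n + 1) → M.carrier) i) : ℝ) -
        (P N ((Fin.snoc y b : Fin (n + 1) → N.carrier) i) : ℝ)| < δ) := by
    intro a ha hPa
    constructor
    · intro i j
      refine Fin.lastCases ?_ (fun i => ?_) i <;> refine Fin.lastCases ?_ (fun j => ?_) j
      · simp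
      · simpa using ha j
      · simpa [eq_comm] using ha i
      · simpa using hxy i j
    · intro i
      refine Fin.lastCases ?_ (fun i => ?_) i
      · simpa using hPa
      · simpa using hP i
  by_cases h : ∃ i, b = y i
  · obtain ⟨i, rfl⟩ := h
    exact ⟨x i, main _ (fun j => hxy i j) (hP i)⟩
  · push Not at h
    obtain ⟨a, ha, hPa⟩ := hM.ext n x (P N b) δ hδ
    exact ⟨a, main _ (fun i => ⟨fun h' => (ha i h').elim, fun h' => (h i h').elim⟩) hPa⟩

/-- Values of formulas depend uniformly continuously on the values of `P`, the equality pattern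
being fixed, uniformly over all nice structures. -/
theorem main_lemma {n : ℕ} (φ : Fmla L0 n) : ∀ ε : ℝ, 0 < ε → ∃ δ : ℝ, 0 < δ ∧
    ∀ (M N : MetricStructure L0), Nice M → Nice N → ∀ (x : Fin n → M.carrier)
      (y : Fin n → N.carrier), (∀ i j, x i = x j ↔ y i = y j) →
      (∀ i, |(P M (x i) : ℝ) - (P N (y i) : ℝ)| < δ) →
      |(φ.eval M x : ℝ) - (φ.eval N y : ℝ)| ≤ ε := by
  induction φ with
  | @metric n s t =>
    intro ε hε
    refine ⟨1, one_pos, ?_⟩
    intro M N hM hN x y hxy _
    obtain ⟨i, rfl⟩ := term_var s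
    obtain ⟨j, rfl⟩ := term_var t
    simp only [Fmla.eval, Term.eval]
    by_cases h : x i = x j
    · rw [h, (hxy i j).1 h, dist_self, dist_self]
      simpa using hε.le
    · rw [hM.discrete _ _ h, hN.discrete _ _ (fun h' => h ((hxy i j).2 h'))]
      simpa using hε.le
  | @pred n k Q ts =>
    intro ε hε
    refine ⟨ε, hε, ?_⟩
    intro M N hM hN x y hxy hP
    obtain ⟨hk⟩ := Q
    subst hk
    obtain ⟨i, hi⟩ := term_var (ts 0)
    have e1 : (fun j => (ts j).eval M x) = fun _ => x i := by
      funext j
      rw [Subsingleton.elim j 0, hi]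
      rfl
    have e2 : (fun j => (ts j).eval N y) = fun _ => y i := by
      funext j
      rw [Subsingleton.elim j 0, hi]
      rfl
    simp only [Fmla.eval, e1, e2]
    exact (hP i).le
  | @conn n k u φ ih =>
    intro ε hε
    have huc : UniformContinuous (fun z : Fin k → I => (u z : ℝ)) :=
      CompactSpace.uniformContinuous_of_continuous (continuous_subtype_val.comp u.continuous)
    obtain ⟨η, hη, hu⟩ := Metric.uniformContinuous_iff.1 huc ε hε
    choose δ hδ h using fun i => ih i (η / 2) (by positivity)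
    obtain ⟨d, hd, hdδ⟩ : ∃ d : ℝ, 0 < d ∧ ∀ i, d ≤ δ i := by
      rcases isEmpty_or_nonempty (Fin k) with hk | hk
      · exact ⟨1, one_pos, fun i => (hk.false i).elim⟩
      · obtain ⟨i0, hi0⟩ := Finite.exists_min δ
        exact ⟨δ i0, hδ i0, hi0⟩
    refine ⟨d, hd, ?_⟩
    intro M N hM hN x y hxy hP
    have hdist : dist (fun i => (φ i).eval M x) (fun i => (φ i).eval N y) < η := by
      rw [dist_pi_lt_iff hη]
      intro i
      rw [Subtype.dist_eq, Real.dist_eq]
      have := h i M N hM hN x y hxy (fun j => (hP j).trans_le (hdδ i))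
      linarith
    have := hu hdist
    rw [Real.dist_eq] at this
    simp only [Fmla.eval]
    exact this.le
  | @inf n φ ih =>
    intro ε hε
    obtain ⟨δ, hδ, h⟩ := ih ε hε
    refine ⟨δ, hδ, ?_⟩
    have key : ∀ (M N : MetricStructure L0), Nice M → Nice N → ∀ (x : Fin n → M.carrier)
      (y : Fin n → N.carrier), (∀ i j, x i = x j ↔ y i = y j) →
      (∀ i, |(P M (x i) : ℝ) - (P N (y i) : ℝ)| < δ) →
      ((Fmla.inf φ).eval M x : ℝ) - ε ≤ ((Fmla.inf φ).eval N y : ℝ) := by
      intro M N hM hN x y hxy hP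
      simp only [Fmla.eval]
      refine le_coe_iInf _ _ fun b => ?_
      obtain ⟨a, ha, hPa⟩ := extend hM hδ hxy hP b
      have h1 := (abs_le.1 (h M N hM hN _ _ ha hPa)).2
      have h2 : ((⨅ a : M.carrier, φ.eval M (Fin.snoc x a) : I) : ℝ) ≤
          (φ.eval M (Fin.snoc x a) : ℝ) := iInf_le (fun a => φ.eval M (Fin.snoc x a)) a
      linarith
    intro M N hM hN x y hxy hP
    have k1 := key M N hM hN x y hxy hP
    have k2 := key N M hN hM y x (fun i j => (hxy i j).symm) (fun i => by
      rw [abs_sub_comm]; exact hP i)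
    rw [abs_le]
    constructor <;> linarith
  | @sup n φ ih =>
    intro ε hε
    obtain ⟨δ, hδ, h⟩ := ih ε hε
    refine ⟨δ, hδ, ?_⟩
    have key : ∀ (M N : MetricStructure L0), Nice M → Nice N → ∀ (x : Fin n → M.carrier)
      (y : Fin n → N.carrier), (∀ i j, x i = x j ↔ y i = y j) →
      (∀ i, |(P M (x i) : ℝ) - (P N (y i) : ℝ)| < δ) →
      ((Fmla.sup φ).eval N y : ℝ) ≤ ((Fmla.sup φ).eval M x : ℝ) + ε := by
      intro M N hM hN x y hxy hP
      simp only [Fmla.eval]
      refine coe_iSup_le _ _ fun b => ?_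
      obtain ⟨a, ha, hPa⟩ := extend hM hδ hxy hP b
      have h1 := (abs_le.1 (h M N hM hN _ _ ha hPa)).1
      have h2 : (φ.eval M (Fin.snoc x a) : ℝ) ≤
          ((⨆ a : M.carrier, φ.eval M (Fin.snoc x a) : I) : ℝ) :=
        le_iSup (fun a => φ.eval M (Fin.snoc x a)) a
      linarith
    intro M N hM hN x y hxy hP
    have k1 := key M N hM hN x y hxy hP
    have k2 := key N M hN hM y x (fun i j => (hxy i j).symm) (fun i => by
      rw [abs_sub_comm]; exact hP i)
    rw [abs_le]
    constructor <;> linarith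

/-! ### The model `[0,1] × ℕ` -/

/-- The points of the model: pairs of a number in `[0,1]` and a natural number. -/
structure Pt where
  v : I
  k : ℕ

open Classical in
/-- The discrete metric. -/
noncomputable instance : MetricSpace Pt where
  dist := fun x y => if x = y then 0 else 1
  dist_self := fun x => by simp
  dist_comm := fun x y => by simp [eq_comm]
  dist_triangle := fun x y z => by
    by_cases h1 : x = y
    · subst h1; simp
    · by_cases h2 : y = z
      · subst h2; simp
      · simp only [h1, h2, if_false]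
        split_ifs <;> norm_num
  eq_of_dist_eq_zero := fun {x y} h => by
    by_contra h1
    simp [h1] at h

theorem Pt.dist_eq_one {x y : Pt} (h : x ≠ y) : dist x y = 1 := by
  classical
  exact if_neg h

theorem Pt.dist_le_one (x y : Pt) : dist x y ≤ 1 := by
  by_cases h : x = y
  · rw [h, dist_self]; norm_num
  · rw [Pt.dist_eq_one h]

instance : CompleteSpace Pt := by
  refine Metric.complete_of_cauchySeq_tendsto fun u hu => ?_
  obtain ⟨N, hN⟩ := Metric.cauchySeq_iff'.1 hu 1 one_pos
  have h : ∀ n ≥ N, u n = u N := by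
    intro n hn
    by_contra h1
    have h2 := Pt.dist_eq_one h1
    have h3 := hN n hn
    linarith
  refine ⟨u N, ?_⟩
  refine tendsto_const_nhds.congr' ?_
  filter_upwards [Filter.eventually_ge_atTop N] with n hn
  exact (h n hn).symm

/-- The model: `[0,1] × ℕ` with the discrete metric, `P` being the first projection. -/
noncomputable def M0 : MetricStructure L0 where
  carrier := Pt
  nonempty := ⟨⟨0, 0⟩⟩
  dist_le_one := Pt.dist_le_one
  func := fun f => f.elim
  pred := fun {n} h x => (x ⟨0, by rw [h.down]; exact one_pos⟩).v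
  func_unif := fun f => f.elim
  pred_unif := fun {n} h ε x y hε hxy => by
    have h0 : 0 < n := by rw [h.down]; exact one_pos
    have h1 : dist (x ⟨0, h0⟩) (y ⟨0, h0⟩) < 1 := lt_of_le_of_lt (dist_le_pi_dist x y _) hxy
    have h2 : x ⟨0, h0⟩ = y ⟨0, h0⟩ := by
      by_contra h3
      have h4 := Pt.dist_eq_one h3
      linarith
    rw [h2, sub_self, abs_zero]
    exact hε.le

theorem P_M0 (x : Pt) : P M0 x = x.v := rfl

theorem M0_nice : Nice M0 where
  discrete := fun x y h => Pt.dist_eq_one h
  ext := by
    intro n x c ε hε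
    have hfin : (Set.range fun i => Pt.k (x i)).Finite := Set.finite_range _
    obtain ⟨m, hm⟩ := hfin.infinite_compl.nonempty
    refine ⟨(⟨c, m⟩ : Pt), ?_, ?_⟩
    · intro i h
      exact hm ⟨i, by show Pt.k (x i) = m; rw [← h]⟩
    · rw [P_M0, sub_self, abs_zero]
      exact hε

/-- The theory of the model. -/
def T0 : Theory L0 := {φ | φ.eval M0 Fin.elim0 = 0}

theorem M0_models : Models M0 T0 := fun _ h => h

/-- Closing a formula by `sup`. -/
def supN {L : Signature} : {n : ℕ} → Fmla L n → Fmla L 0
  | 0, φ => φ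
  | _ + 1, φ => supN φ.sup

theorem supN_eval {L : Signature} (M : MetricStructure L) : ∀ {n : ℕ} (φ : Fmla L n),
    (supN φ).eval M Fin.elim0 = 0 ↔ ∀ x : Fin n → M.carrier, φ.eval M x = 0
  | 0, φ => by
    constructor
    · intro h x
      rw [Subsingleton.elim x Fin.elim0]
      exact h
    · intro h
      exact h _
  | n + 1, φ => by
    have h1 : supN φ = supN φ.sup := rfl
    rw [h1, supN_eval M φ.sup]
    constructor
    · intro h x
      have h2 := h (Fin.init x)
      simp only [Fmla.eval] at h2
      have h3 : φ.eval M (Fin.snoc (Fin.init x) (x (Fin.last n))) ≤ 0 := by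
        rw [← h2]
        exact le_iSup (fun a => φ.eval M (Fin.snoc (Fin.init x) a)) (x (Fin.last n))
      rw [Fin.snoc_init_self] at h3
      exact le_antisymm h3 (unitInterval.nonneg _)
    · intro h x
      simp only [Fmla.eval, h]
      exact ciSup_const

/-- The connective `min(t, 1 - t)`. -/
noncomputable def u1 : C(Fin 1 → I, I) where
  toFun z := min (z 0) (unitInterval.symm (z 0))
  continuous_toFun := by fun_prop

/-- The sentence saying that distances are `0` or `1`. -/
noncomputable def discF : Fmla L0 0 :=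
  supN (n := 2) (Fmla.conn u1 fun _ => Fmla.metric (Term.var 0) (Term.var 1))

/-- The connective `min(1, |z₀ - c| + ∑ (1 - zᵢ))`. -/
noncomputable def u2 (n : ℕ) (c : I) : C(Fin (n + 1) → I, I) where
  toFun z := ⟨min 1 (|(z 0 : ℝ) - (c : ℝ)| + ∑ i : Fin n, (1 - (z i.succ : ℝ))),
    le_min zero_le_one (add_nonneg (abs_nonneg _)
      (Finset.sum_nonneg fun i _ => sub_nonneg.2 (z i.succ).2.2)), min_le_left _ _⟩
  continuous_toFun := by
    refine Continuous.subtype_mk ?_ _
    fun_prop

/-- The sentence saying that the value `c` is approximated by new elements. -/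
noncomputable def extF (n : ℕ) (c : I) : Fmla L0 0 :=
  supN (n := n) (Fmla.inf (Fmla.conn (u2 n c)
    (Fin.cons (Fmla.pred (k := 1) (PLift.up rfl : L0.Pred 1) fun _ => Term.var (Fin.last n))
      fun i => Fmla.metric (Term.var i.castSucc) (Term.var (Fin.last n)))))

theorem discF_eval (M : MetricStructure L0) : discF.eval M Fin.elim0 = 0 ↔
    ∀ x y : M.carrier, dist x y = 0 ∨ dist x y = 1 := by
  have key : ∀ x : Fin 2 → M.carrier,
      (Fmla.conn (L := L0) u1 fun _ => Fmla.metric (Term.var 0) (Term.var 1)).eval M x = 0 ↔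
        dist (x 0) (x 1) = 0 ∨ dist (x 0) (x 1) = 1 := by
    intro x
    simp only [Fmla.eval, Term.eval, u1, ContinuousMap.coe_mk]
    generalize hz : (⟨dist (x 0) (x 1), dist_nonneg, M.dist_le_one _ _⟩ : I) = z
    have hz' : dist (x 0) (x 1) = (z : ℝ) := by rw [← hz]
    rw [hz']
    have h1 : min z (unitInterval.symm z) = 0 ↔ z = 0 ∨ unitInterval.symm z = 0 := by
      constructor
      · intro h
        rcases min_choice z (unitInterval.symm z) with h2 | h2
        · left; rw [← h2]; exact h
        · right; rw [← h2]; exact h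
      · rintro (h | h)
        · rw [h]; exact min_eq_left (unitInterval.nonneg _)
        · rw [h]; exact min_eq_right (unitInterval.nonneg _)
    rw [h1]
    refine or_congr ?_ ?_
    · rw [Subtype.ext_iff]; rfl
    · rw [unitInterval.symm_eq_zero, Subtype.ext_iff]; rfl
  unfold discF
  rw [supN_eval]
  constructor
  · intro h x y
    exact (key ![x, y]).1 (h ![x, y])
  · intro h x
    exact (key x).2 (h _ _)

theorem extF_eval (M : MetricStructure L0) (n : ℕ) (c : I) (x : Fin n → M.carrier)
    (y : M.carrier) :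
    ((Fmla.conn (L := L0) (u2 n c)
    (Fin.cons (Fmla.pred (k := 1) (PLift.up rfl : L0.Pred 1) fun _ => Term.var (Fin.last n))
      fun i => Fmla.metric (Term.var i.castSucc) (Term.var (Fin.last n)))).eval M
        (Fin.snoc x y) : ℝ) =
      min 1 (|(P M y : ℝ) - (c : ℝ)| + ∑ i : Fin n, (1 - dist (x i) y)) := by
  simp only [Fmla.eval, Term.eval, u2, ContinuousMap.coe_mk, Fin.cons_zero, Fin.cons_succ,
    Fin.snoc_last, Fin.snoc_castSucc, P]

theorem T0_discF : discF ∈ T0 := by
  show discF.eval M0 Fin.elim0 = 0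
  rw [discF_eval]
  intro x y
  by_cases h : x = y
  · left; rw [h, dist_self]
  · right; exact M0_nice.discrete x y h

theorem T0_extF (n : ℕ) (c : I) : extF n c ∈ T0 := by
  show (extF n c).eval M0 Fin.elim0 = 0
  unfold extF
  rw [supN_eval]
  intro x
  have hfin : (Set.range fun i => Pt.k (x i)).Finite := Set.finite_range _
  obtain ⟨m, hm⟩ := hfin.infinite_compl.nonempty
  let y : M0.carrier := (⟨c, m⟩ : Pt)
  have hy : ∀ i, x i ≠ y := by
    intro i h
    exact hm ⟨i, by show Pt.k (x i) = m; rw [h]⟩
  have hPy : P M0 y = c := rfl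
  have h1 := extF_eval M0 n c x y
  rw [hPy, sub_self, abs_zero, Finset.sum_eq_zero (fun i _ => by
    rw [M0_nice.discrete _ _ (hy i), sub_self])] at h1
  have h2 : (min 1 (0 + 0) : ℝ) = 0 := by norm_num
  rw [h2] at h1
  rw [Fmla.eval]
  refine le_antisymm ?_ (unitInterval.nonneg _)
  refine (iInf_le _ y).trans ?_
  exact (Subtype.ext h1 : _ = (0 : I)).le

theorem nice_of_models {M : MetricStructure L0} (h : Models M T0) : Nice M where
  discrete := by
    intro x y hxy
    rcases (discF_eval M).1 (h _ T0_discF) x y with h1 | h1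
    · exact (hxy (dist_eq_zero.1 h1)).elim
    · exact h1
  ext := by
    intro n x c ε hε
    have h1 := h _ (T0_extF n c)
    unfold extF at h1
    rw [supN_eval] at h1
    have h2 := h1 x
    rw [Fmla.eval] at h2
    by_contra hcon
    push Not at hcon
    have h3 : min 1 ε ≤ 0 := by
      have h4 := le_coe_iInf (fun a : M.carrier => (Fmla.conn (L := L0) (u2 n c)
        (Fin.cons (Fmla.pred (k := 1) (PLift.up rfl : L0.Pred 1) fun _ => Term.var (Fin.last n))
          fun i => Fmla.metric (Term.var i.castSucc) (Term.var (Fin.last n)))).eval M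
            (Fin.snoc x a)) (min 1 ε) (by
          intro y
          rw [extF_eval]
          refine le_min (min_le_left _ _) ?_
          have hs : ∀ i ∈ Finset.univ, 0 ≤ 1 - dist (x i) y := fun i _ =>
            sub_nonneg.2 (M.dist_le_one _ _)
          by_cases hy : ∀ i, y ≠ x i
          · have := hcon y hy
            have h5 := Finset.sum_nonneg hs
            have h6 := min_le_right 1 ε
            linarith
          · push Not at hy
            obtain ⟨i, hi⟩ := hy
            have h5 : 1 - dist (x i) y ≤ ∑ i : Fin n, (1 - dist (x i) y) :=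
              Finset.single_le_sum hs (Finset.mem_univ i)
            rw [hi, dist_self] at h5
            have h6 := min_le_left 1 ε
            have h7 := abs_nonneg ((P M y : ℝ) - (c : ℝ))
            rw [hi] at h7 ⊢
            linarith)
      rw [h2] at h4
      exact h4
    have h4 : 0 < min 1 ε := lt_min one_pos hε
    linarith

/-! ### The theory is complete -/

theorem T0_complete : IsComplete T0 := by
  refine ⟨⟨M0, M0_models⟩, ?_⟩
  intro M N hM hN φ
  apply Subtype.ext
  by_contra hne
  have hpos : 0 < |(φ.eval M Fin.elim0 : ℝ) - (φ.eval N Fin.elim0 : ℝ)| :=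
    abs_pos.2 (sub_ne_zero.2 hne)
  obtain ⟨δ, hδ, h⟩ := main_lemma φ _ (half_pos hpos)
  have h1 := h M N (nice_of_models hM) (nice_of_models hN) Fin.elim0 Fin.elim0
    (fun i => i.elim0) (fun i => i.elim0)
  linarith

/-! ### The theory is stable -/

open Filter

theorem T0_stable : IsStable T0 := by
  intro M hM m n φ ε hε
  rintro ⟨a, b, hab⟩
  have hN := nice_of_models hM
  obtain ⟨δ, hδ, hφ⟩ := main_lemma φ (ε / 2) (half_pos hε)
  let U : Filter ℕ := hyperfilter ℕ
  have hU : U.NeBot := inferInstance
  have dich : ∀ p : ℕ → Prop, (∀ᶠ i in U, p i) ∨ (∀ᶠ i in U, ¬ p i) := fun p =>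
    (hyperfilter ℕ).eventually_or.1 (Eventually.of_forall fun i => em (p i))
  -- values of `P` are eventually close
  have close : ∀ f : ℕ → M.carrier, ∀ᶠ i in U, ∀ᶠ j in U,
      |(P M (f i) : ℝ) - (P M (f j) : ℝ)| < δ := by
    intro f
    obtain ⟨L, hL⟩ : ∃ L : I, Tendsto (fun i => P M (f i)) U (nhds L) := by
      have := (isCompact_univ (X := I)).ultrafilter_le_nhds
        ((hyperfilter ℕ).map (fun i => P M (f i))) (by simp)
      obtain ⟨L, -, hL⟩ := this
      exact ⟨L, hL⟩
    have h1 : ∀ᶠ i in U, |(P M (f i) : ℝ) - (L : ℝ)| < δ / 2 := by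
      have h2 : Tendsto (fun i => (P M (f i) : ℝ)) U (nhds (L : ℝ)) :=
        (continuous_subtype_val.tendsto L).comp hL
      have h3 := Metric.tendsto_nhds.1 h2 (δ / 2) (half_pos hδ)
      filter_upwards [h3] with i hi
      rwa [Real.dist_eq] at hi
    filter_upwards [h1] with i hi
    filter_upwards [h1] with j hj
    rw [abs_lt] at hi hj ⊢
    constructor <;> linarith
  -- one sequence
  have same : ∀ f g : ℕ → M.carrier, ∀ᶠ i in U, ∀ᶠ j in U, (f i = g i ↔ f j = g j) := by
    intro f g
    rcases dich (fun i => f i = g i) with h | h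
    · filter_upwards [h] with i hi
      filter_upwards [h] with j hj
      exact ⟨fun _ => hj, fun _ => hi⟩
    · filter_upwards [h] with i hi
      filter_upwards [h] with j hj
      exact ⟨fun h' => (hi h').elim, fun h' => (hj h').elim⟩
  -- two sequences
  have cross : ∀ f g : ℕ → M.carrier, ∀ᶠ i in U, ∀ᶠ j in U, (f i = g j ↔ f j = g i) := by
    intro f g
    by_cases hf : ∃ c, ∀ᶠ i in U, f i = c
    · obtain ⟨c, hc⟩ := hf
      rcases dich (fun i => c = g i) with h | h
      · filter_upwards [hc, h] with i hi hi'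
        filter_upwards [hc, h] with j hj hj'
        rw [hi, hj]
        exact ⟨fun _ => hi', fun _ => hj'⟩
      · filter_upwards [hc, h] with i hi hi'
        filter_upwards [hc, h] with j hj hj'
        rw [hi, hj]
        exact ⟨fun h' => (hj' h').elim, fun h' => (hi' h').elim⟩
    · have hf' : ∀ c, ∀ᶠ i in U, f i ≠ c := fun c =>
        (dich (fun i => f i = c)).resolve_left fun h => hf ⟨c, h⟩
      by_cases hg : ∃ c, ∀ᶠ i in U, g i = c
      · obtain ⟨c, hc⟩ := hg
        filter_upwards [hc, hf' c] with i hi hi'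
        filter_upwards [hc, hf' c] with j hj hj'
        rw [hi, hj]
        exact ⟨fun h' => (hi' h').elim, fun h' => (hj' h').elim⟩
      · have hg' : ∀ c, ∀ᶠ i in U, g i ≠ c := fun c =>
          (dich (fun i => g i = c)).resolve_left fun h => hg ⟨c, h⟩
        refine Eventually.of_forall fun i => ?_
        filter_upwards [hf' (g i), hg' (f i)] with j hj hj'
        exact ⟨fun h' => (hj' h'.symm).elim, fun h' => (hj h').elim⟩
  have E : ∀ᶠ i in U, ∀ᶠ j in U, i < j ∧
      (∀ k, |(P M (a i k) : ℝ) - (P M (a j k) : ℝ)| < δ) ∧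
      (∀ k, |(P M (b i k) : ℝ) - (P M (b j k) : ℝ)| < δ) ∧
      (∀ k l, (a i k = a i l ↔ a j k = a j l)) ∧
      (∀ k l, (b i k = b i l ↔ b j k = b j l)) ∧
      (∀ k l, (a i k = b j l ↔ a j k = b i l)) := by
    have e1 : ∀ᶠ i in U, ∀ᶠ j in U, i < j := Eventually.of_forall fun i => by
      have : {j : ℕ | i < j} ∈ (hyperfilter ℕ : Filter ℕ) := by
        apply Filter.mem_hyperfilter_of_finite_compl
        refine (Set.finite_Iic i).subset ?_
        intro j hj
        simpa using hj
      exact this
    have e2 : ∀ᶠ i in U, ∀ k, ∀ᶠ j in U, |(P M (a i k) : ℝ) - (P M (a j k) : ℝ)| < δ :=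
      eventually_all.2 fun k => close fun i => a i k
    have e3 : ∀ᶠ i in U, ∀ k, ∀ᶠ j in U, |(P M (b i k) : ℝ) - (P M (b j k) : ℝ)| < δ :=
      eventually_all.2 fun k => close fun i => b i k
    have e4 : ∀ᶠ i in U, ∀ k l, ∀ᶠ j in U, (a i k = a i l ↔ a j k = a j l) :=
      eventually_all.2 fun k => eventually_all.2 fun l => same (fun i => a i k) (fun i => a i l)
    have e5 : ∀ᶠ i in U, ∀ k l, ∀ᶠ j in U, (b i k = b i l ↔ b j k = b j l) :=
      eventually_all.2 fun k => eventually_all.2 fun l => same (fun i => b i k) (fun i => b i l)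
    have e6 : ∀ᶠ i in U, ∀ k l, ∀ᶠ j in U, (a i k = b j l ↔ a j k = b i l) :=
      eventually_all.2 fun k => eventually_all.2 fun l => cross (fun i => a i k) (fun i => b i l)
    filter_upwards [e1, e2, e3, e4, e5, e6] with i h1 h2 h3 h4 h5 h6
    exact h1.and ((eventually_all.2 h2).and ((eventually_all.2 h3).and
      ((eventually_all.2 fun k => eventually_all.2 (h4 k)).and
      ((eventually_all.2 fun k => eventually_all.2 (h5 k)).and
      (eventually_all.2 fun k => eventually_all.2 (h6 k))))))
  obtain ⟨i, hi⟩ := E.exists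
  obtain ⟨j, hij, h1, h2, h3, h4, h5⟩ := hi.exists
  have h6 := hφ M M hN hN (Fin.append (a i) (b j)) (Fin.append (a j) (b i)) (by
    intro s t
    refine Fin.addCases (fun s => ?_) (fun s => ?_) s <;>
      refine Fin.addCases (fun t => ?_) (fun t => ?_) t
    · simpa using h3 s t
    · simpa using h5 s t
    · simpa [eq_comm] using h5 t s
    · simpa using (h4 s t).symm) (by
    intro s
    refine Fin.addCases (fun s => ?_) (fun s => ?_) s
    · simpa using h1 s
    · rw [Fin.append_right, Fin.append_right, abs_sub_comm]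
      exact h2 s)
  have h7 := hab i j hij
  unfold val at h7
  linarith

/-! ### The number of types -/

section FewTypes

variable {M : MetricStructure L0} {A : Set M.carrier} {n : ℕ}

theorem finSat' (p : CompleteType M A n) {ι : Type} [Finite ι]
    (c : ι → Σ k : ℕ, Fmla L0 (n + k) × (Fin k → A)) (ε : ℝ) (hε : 0 < ε) :
    ∃ x : Fin n → M.carrier, ∀ j : ι,
      |val M (c j).2.1 x (fun i => ((c j).2.2 i : M.carrier)) - (p.value (c j) : ℝ)| < ε := by
  obtain ⟨x, hx⟩ := p.finSat (Nat.card ι) (fun i => c ((Finite.equivFin ι).symm i)) ε hε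
  refine ⟨x, fun j => ?_⟩
  obtain ⟨i, rfl⟩ := (Finite.equivFin ι).symm.surjective j
  exact hx i

/-- The formula `P(xᵢ)`. -/
def cP (A : Set M.carrier) (i : Fin n) : Σ k : ℕ, Fmla L0 (n + k) × (Fin k → A) :=
  ⟨0, Fmla.pred (k := 1) (PLift.up rfl : L0.Pred 1) (fun _ => Term.var (Fin.castAdd 0 i)),
    fun j => j.elim0⟩

/-- The formula `d(xᵢ, xⱼ)`. -/
def cE (A : Set M.carrier) (i j : Fin n) : Σ k : ℕ, Fmla L0 (n + k) × (Fin k → A) :=
  ⟨0, Fmla.metric (Term.var (Fin.castAdd 0 i)) (Term.var (Fin.castAdd 0 j)), fun j => j.elim0⟩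

/-- The formula `d(xᵢ, a)`. -/
def cA (i : Fin n) (a : A) : Σ k : ℕ, Fmla L0 (n + k) × (Fin k → A) :=
  ⟨1, Fmla.metric (Term.var (Fin.castAdd 1 i)) (Term.var (Fin.natAdd n 0)), fun _ => a⟩

theorem cP_val (i : Fin n) (x : Fin n → M.carrier) :
    val M (cP A i).2.1 x (fun j => ((cP A i).2.2 j : M.carrier)) = (P M (x i) : ℝ) := by
  simp only [val, cP, Fmla.eval, Term.eval, Fin.append_left, P]

theorem cE_val (i j : Fin n) (x : Fin n → M.carrier) :
    val M (cE A i j).2.1 x (fun l => ((cE A i j).2.2 l : M.carrier)) = dist (x i) (x j) := by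
  simp only [val, cE, Fmla.eval, Term.eval, Fin.append_left]

theorem cA_val (i : Fin n) (a : A) (x : Fin n → M.carrier) :
    val M (cA i a).2.1 x (fun l => ((cA i a).2.2 l : M.carrier)) = dist (x i) (a : M.carrier) := by
  simp only [val, cA, Fmla.eval, Term.eval, Fin.append_left, Fin.append_right]

theorem dist_zero_or_one (hM : Nice M) (x y : M.carrier) : dist x y = 0 ∨ dist x y = 1 := by
  by_cases h : x = y
  · left; rw [h, dist_self]
  · right; exact hM.discrete x y h

theorem cA_zero_or_one (hM : Nice M) (p : CompleteType M A n) (i : Fin n) (a : A) :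
    (p.value (cA i a) : ℝ) = 0 ∨ (p.value (cA i a) : ℝ) = 1 := by
  by_contra h
  push Not at h
  have h0 : 0 < (p.value (cA i a) : ℝ) := lt_of_le_of_ne (p.value _).2.1 h.1.symm
  have h1 : (p.value (cA i a) : ℝ) < 1 := lt_of_le_of_ne (p.value _).2.2 h.2
  obtain ⟨x, hx⟩ := finSat' p (fun _ : Unit => cA i a)
    (min (p.value (cA i a) : ℝ) (1 - (p.value (cA i a) : ℝ))) (lt_min h0 (by linarith))
  have h2 := hx ()
  rw [cA_val, abs_lt] at h2
  have h3 := min_le_left (p.value (cA i a) : ℝ) (1 - (p.value (cA i a) : ℝ))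
  have h4 := min_le_right (p.value (cA i a) : ℝ) (1 - (p.value (cA i a) : ℝ))
  rcases dist_zero_or_one hM (x i) a with h5 | h5 <;> rw [h5] at h2 <;> linarith [h2.1, h2.2]

theorem cA_unique (hM : Nice M) (p : CompleteType M A n) (i : Fin n) (a b : A)
    (ha : (p.value (cA i a) : ℝ) = 0) (hb : (p.value (cA i b) : ℝ) = 0) : a = b := by
  obtain ⟨x, hx⟩ := finSat' p (fun c : Bool => match c with
    | true => cA i a
    | false => cA i b) (1 / 2) (by norm_num)
  have h1 := hx true
  have h2 := hx false
  simp only at h1 h2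
  rw [cA_val, ha, abs_lt] at h1
  rw [cA_val, hb, abs_lt] at h2
  have h3 : x i = a := by
    rcases dist_zero_or_one hM (x i) a with h5 | h5
    · exact dist_eq_zero.1 h5
    · rw [h5] at h1; linarith [h1.2]
  have h4 : x i = b := by
    rcases dist_zero_or_one hM (x i) b with h5 | h5
    · exact dist_eq_zero.1 h5
    · rw [h5] at h2; linarith [h2.2]
  exact Subtype.ext (h3.symm.trans h4)

open Classical in
/-- The data determining a type. -/
noncomputable def code (p : CompleteType M A n) :
    (Fin n → I) × (Fin n → Fin n → I) × (Fin n → Option A) :=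
  (fun i => p.value (cP A i), fun i j => p.value (cE A i j),
    fun i => if h : ∃ a : A, (p.value (cA i a) : ℝ) = 0 then some h.choose else none)

theorem cA_of_code (hM : Nice M) {p q : CompleteType M A n} (h : code p = code q) (i : Fin n)
    (a : A) (ha : (p.value (cA i a) : ℝ) = 0) : (q.value (cA i a) : ℝ) = 0 := by
  have h1 : (code p).2.2 i = (code q).2.2 i := by rw [h]
  have hex : ∃ a : A, (p.value (cA i a) : ℝ) = 0 := ⟨a, ha⟩
  simp only [code, dif_pos hex] at h1
  have h2 : hex.choose = a := cA_unique hM p i _ _ hex.choose_spec ha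
  rw [h2] at h1
  split_ifs at h1 with h3
  have h4 := h3.choose_spec
  rw [← Option.some.inj h1] at h4
  exact h4

theorem code_injective (hM : Nice M) : Function.Injective (code (M := M) (A := A) (n := n)) := by
  intro p q hpq
  have hval : p.value = q.value := by
    funext c
    obtain ⟨k, φ, a⟩ := c
    apply Subtype.ext
    by_contra hne
    have hpos : 0 < |(p.value ⟨k, φ, a⟩ : ℝ) - (q.value ⟨k, φ, a⟩ : ℝ)| :=
      abs_pos.2 (sub_ne_zero.2 hne)
    set ε : ℝ := |(p.value ⟨k, φ, a⟩ : ℝ) - (q.value ⟨k, φ, a⟩ : ℝ)| / 4 with hε_def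
    have hε : 0 < ε := by positivity
    obtain ⟨δ, hδ, hmain⟩ := main_lemma φ ε hε
    let ι := Unit ⊕ Fin n ⊕ (Fin n × Fin n) ⊕ (Fin n × Fin k)
    let c : ι → Σ k : ℕ, Fmla L0 (n + k) × (Fin k → A) := fun s => match s with
      | Sum.inl _ => ⟨k, φ, a⟩
      | Sum.inr (Sum.inl i) => cP A i
      | Sum.inr (Sum.inr (Sum.inl ij)) => cE A ij.1 ij.2
      | Sum.inr (Sum.inr (Sum.inr il)) => cA il.1 (a il.2)
    set η : ℝ := min ε (min (δ / 2) (1 / 2)) with hη_def
    have hη : 0 < η := lt_min hε (lt_min (half_pos hδ) (by norm_num))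
    have hη1 : η ≤ ε := min_le_left _ _
    have hη2 : η ≤ δ / 2 := (min_le_right _ _).trans (min_le_left _ _)
    have hη3 : η ≤ 1 / 2 := (min_le_right _ _).trans (min_le_right _ _)
    obtain ⟨x, hx⟩ := finSat' p c η hη
    obtain ⟨y, hy⟩ := finSat' q c η hη
    have x1 := hx (Sum.inl ())
    have y1 := hy (Sum.inl ())
    have x2 := fun i => hx (Sum.inr (Sum.inl i))
    have y2 := fun i => hy (Sum.inr (Sum.inl i))
    have x3 := fun i j => hx (Sum.inr (Sum.inr (Sum.inl (i, j))))
    have y3 := fun i j => hy (Sum.inr (Sum.inr (Sum.inl (i, j))))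
    have x4 := fun i j => hx (Sum.inr (Sum.inr (Sum.inr (i, j))))
    have y4 := fun i j => hy (Sum.inr (Sum.inr (Sum.inr (i, j))))
    simp only [c] at x1 y1 x2 y2 x3 y3 x4 y4
    simp only [cP_val] at x2 y2
    simp only [cE_val] at x3 y3
    simp only [cA_val] at x4 y4
    have d2 : ∀ i, p.value (cP A i) = q.value (cP A i) := fun i => congrFun (congrArg (·.1) hpq) i
    have d3 : ∀ i j, p.value (cE A i j) = q.value (cE A i j) := fun i j =>
      congrFun (congrFun (congrArg (·.2.1) hpq) i) j
    have d4 : ∀ i b, (p.value (cA i b) : ℝ) = (q.value (cA i b) : ℝ) := by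
      intro i b
      rcases cA_zero_or_one hM p i b with h1 | h1
      · rw [h1, cA_of_code hM hpq i b h1]
      · rcases cA_zero_or_one hM q i b with h2 | h2
        · have := cA_of_code hM hpq.symm i b h2
          rw [this] at h1
          norm_num at h1
        · rw [h1, h2]
    have eqv : ∀ s t s' t' : M.carrier, |dist s t - dist s' t'| < 1 → (s = t ↔ s' = t') := by
      intro s t s' t' h
      have h0 : dist s t = dist s' t' := by
        rcases dist_zero_or_one hM s t with h1 | h1 <;>
          rcases dist_zero_or_one hM s' t' with h2 | h2 <;> rw [h1, h2] at h ⊢ <;> norm_num at h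
      rw [← dist_eq_zero, ← dist_eq_zero (x := s'), h0]
    have h5 := hmain M M hM hM (Fin.append x fun i => (a i : M.carrier))
      (Fin.append y fun i => (a i : M.carrier)) (by
      intro s t
      have e4 : ∀ i l, (x i = (a l : M.carrier) ↔ y i = (a l : M.carrier)) := by
        intro i l
        apply eqv
        have h1 := x4 i l
        have h2 := y4 i l
        rw [d4] at h1
        rw [abs_lt] at h1 h2 ⊢
        constructor <;> linarith [h1.1, h1.2, h2.1, h2.2]
      refine Fin.addCases (fun s => ?_) (fun s => ?_) s <;>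
        refine Fin.addCases (fun t => ?_) (fun t => ?_) t
      · simp only [Fin.append_left]
        apply eqv
        have h1 := x3 s t
        have h2 := y3 s t
        rw [d3] at h1
        rw [abs_lt] at h1 h2 ⊢
        constructor <;> linarith [h1.1, h1.2, h2.1, h2.2]
      · simpa using e4 s t
      · simpa [eq_comm] using e4 t s
      · simp) (by
      intro s
      refine Fin.addCases (fun s => ?_) (fun s => ?_) s
      · simp only [Fin.append_left]
        have h1 := x2 s
        have h2 := y2 s
        rw [d2] at h1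
        rw [abs_lt] at h1 h2 ⊢
        constructor <;> linarith [h1.1, h1.2, h2.1, h2.2]
      · simpa using hδ)
    unfold val at x1 y1
    have h6 : |(p.value ⟨k, φ, a⟩ : ℝ) - (q.value ⟨k, φ, a⟩ : ℝ)| ≤ 3 * ε := by
      rw [abs_lt] at x1 y1
      rw [abs_le] at h5 ⊢
      constructor <;> linarith [x1.1, x1.2, y1.1, y1.2, h5.1, h5.2]
    linarith
  cases p
  cases q
  simp only at hval
  subst hval
  rfl

end FewTypes

theorem T0_fewTypes : HasFewTypes T0 𝔠 := by
  intro M hM A hA n
  have hN := nice_of_models hM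
  have h1 : ∀ X : Type, #X ≤ 𝔠 → #(Fin n → X) ≤ 𝔠 := by
    intro X hX
    have h2 : #(Fin n → X) = #X ^ n := by simp
    rw [h2]
    exact (Cardinal.power_le_power_right hX).trans
      (Cardinal.power_nat_le Cardinal.aleph0_le_continuum)
  have hI : #I ≤ 𝔠 := by
    rw [← Cardinal.mk_real]
    exact Cardinal.mk_subtype_le _
  have hO : #(Option A) ≤ 𝔠 := by
    rw [Cardinal.mk_option]
    exact Cardinal.add_le_of_le Cardinal.aleph0_le_continuum hA
      (Cardinal.one_le_aleph0.trans Cardinal.aleph0_le_continuum)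
  refine (Cardinal.mk_le_of_injective (code_injective hN)).trans ?_
  rw [Cardinal.mk_prod, Cardinal.mk_prod]
  simp only [Cardinal.lift_id]
  refine Cardinal.mul_le_of_le Cardinal.aleph0_le_continuum (h1 _ hI) ?_
  exact Cardinal.mul_le_of_le Cardinal.aleph0_le_continuum (h1 _ (h1 _ hI)) (h1 _ hO)

/-! ### The theory does not have enough d-definable sets -/

/-- The point of `M0^1` with the value `t`. -/
def pt (t : I) : Fin 1 → M0.carrier := fun _ => (⟨t, 0⟩ : Pt)

/-- A nonempty set which is d-definable over the empty set contains all the points `pt t`. -/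
theorem ddef_trivial (D : Set (Fin 1 → M0.carrier)) (hD : IsDDefinable M0 ∅ D)
    (hne : D.Nonempty) (t : I) : pt t ∈ D := by
  obtain ⟨k, φ, a, ha, hφ⟩ := hD.2 (1 / 6) (by norm_num)
  obtain ⟨δ, hδ, hmain⟩ := main_lemma φ (1 / 6) (by norm_num)
  have far : ∀ x, x ∉ D → 1 ≤ Metric.infDist x D := by
    intro x hx
    rw [Metric.le_infDist hne]
    intro y hy
    have hxy : x 0 ≠ y 0 := by
      intro h
      apply hx
      have : x = y := by
        funext i
        rw [Subsingleton.elim i 0, h]
      rw [this]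
      exact hy
    rw [← M0_nice.discrete _ _ hxy]
    exact dist_le_pi_dist x y 0
  have step : ∀ x y : Fin 1 → M0.carrier, |(P M0 (x 0) : ℝ) - (P M0 (y 0) : ℝ)| < δ →
      x ∈ D → y ∈ D := by
    intro x y hxy hx
    by_contra hy
    have h1 := hφ x
    have h2 := hφ y
    have h3 := far y hy
    have h4 := Metric.infDist_zero_of_mem hx
    have h5 := hmain M0 M0 M0_nice M0_nice (Fin.append x a) (Fin.append y a) (by
      intro i j
      refine Fin.addCases (fun i => ?_) (fun i => (ha i).elim) i
      refine Fin.addCases (fun j => ?_) (fun j => (ha j).elim) j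
      rw [Subsingleton.elim i j]
      simp) (by
      intro i
      refine Fin.addCases (fun i => ?_) (fun i => (ha i).elim) i
      rw [Fin.append_left, Fin.append_left, Subsingleton.elim i 0]
      exact hxy)
    unfold val at h1 h2
    rw [abs_le] at h1 h2 h5
    linarith [h1.1, h1.2, h2.1, h2.2, h5.1, h5.2]
  obtain ⟨x, hx⟩ := hne
  have h0 : pt (P M0 (x 0)) ∈ D := by
    refine step x _ ?_ hx
    have : P M0 (pt (P M0 (x 0)) 0) = P M0 (x 0) := rfl
    rw [this, sub_self, abs_zero]
    exact hδ
  have hclopen : IsClopen {s : I | pt s ∈ D} := by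
    have hloc : ∀ s : I, ∀ s' : I, |(s : ℝ) - (s' : ℝ)| < δ → (pt s ∈ D ↔ pt s' ∈ D) := by
      intro s s' h
      exact ⟨step _ _ h, step _ _ (by rw [abs_sub_comm]; exact h)⟩
    constructor
    · rw [← isOpen_compl_iff, Metric.isOpen_iff]
      intro s hs
      refine ⟨δ, hδ, ?_⟩
      intro s' hs' hmem
      rw [Metric.mem_ball, Subtype.dist_eq, Real.dist_eq] at hs'
      exact hs ((hloc s' s hs').1 hmem)
    · rw [Metric.isOpen_iff]
      intro s hs
      refine ⟨δ, hδ, ?_⟩
      intro s' hs'
      rw [Metric.mem_ball, Subtype.dist_eq, Real.dist_eq] at hs'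
      exact (hloc s' s hs').2 hs
  have huniv := hclopen.eq_univ ⟨_, h0⟩
  have : t ∈ {s : I | pt s ∈ D} := by rw [huniv]; trivial
  exact this

/-- The type of `pt 0` over the empty set. -/
noncomputable def p0 : CompleteType M0 ∅ 1 where
  value := fun c => c.2.1.eval M0 (Fin.append (pt 0) fun i => (c.2.2 i : M0.carrier))
  finSat := by
    intro m c ε hε
    refine ⟨pt 0, fun j => ?_⟩
    rw [sub_self, abs_zero]
    exact hε

theorem T0_not_enough : ¬ HasEnoughDDefinableSets T0 := by
  intro h
  obtain ⟨𝒟, h𝒟, heq⟩ := h M0 M0_models ∅ 1 p0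
  have h0 : pt 0 ∈ p0.realizations := fun c => rfl
  have h1 : pt 1 ∉ p0.realizations := by
    intro h1
    have h2 := h1 ⟨0, Fmla.pred (k := 1) (PLift.up rfl : L0.Pred 1) (fun _ => Term.var 0),
      fun i => i.elim0⟩
    have h3 : (1 : ℝ) = 0 := h2
    exact one_ne_zero h3
  apply h1
  rw [heq] at h0 ⊢
  intro D hD
  exact ddef_trivial D (h𝒟 D hD) ⟨_, h0 D hD⟩ 1

/-- There is a complete stable continuous theory which does not have enough d-definable sets. The
theory is stable both in the sense that no formula has the order property and in the sense that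
over each set of at most `2^ℵ₀` parameters there are at most `2^ℵ₀` types. -/
theorem result : ∃ (L : Signature) (T : Theory L),
    IsComplete T ∧ IsStable T ∧ HasFewTypes T 𝔠 ∧ ¬ HasEnoughDDefinableSets T :=
  ⟨L0, T0, T0_complete, T0_stable, T0_fewTypes, T0_not_enough⟩

end Pool.Agent.Results.MP_cc3859_lc.StableNotEnough
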